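import Mathlib

/-!
MP_1bbd34_nt, Q1 (Filaseta and Grosswald): three explicit integers `n ≥ 3` with `P(n(n+1)) < δ(n)`.
-/

set_option autoImplicit false

namespace Pool.Agent.Results.MP_1bbd34_nt.ThreeCounterexamples

/-- The largest prime factor of `x` (for `x ≥ 2`). -/
def P (x : ℕ) : ℕ := x.primeFactors.sup id

/-- The greatest prime strictly below `n` (for `n ≥ 3`). -/
noncomputable def prevPrime (n : ℕ) : ℕ := sSup {p : ℕ | p.Prime ∧ p < n}

/-- The least prime that is at least `n`. -/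
noncomputable def nextPrime (n : ℕ) : ℕ := sInf {q : ℕ | q.Prime ∧ n ≤ q}

/-- The distance `δ(n)` from `n` to the nearer of these two primes. -/
noncomputable def δ (n : ℕ) : ℕ := min (n - prevPrime n) (nextPrime n - n)

theorem δ_eq {n p q : ℕ} (hp : p.Prime) (hq : q.Prime) (h1 : p < n) (h2 : n ≤ q)
    (h : ∀ r : ℕ, r.Prime → p < r → r < q → False) : δ n = min (n - p) (q - n) := by
  have e1 : prevPrime n = p := by
    apply IsGreatest.csSup_eq
    refine ⟨⟨hp, h1⟩, ?_⟩
    rintro r ⟨hr, hrn⟩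
    by_contra hc
    exact h r hr (by omega) (by omega)
  have e2 : nextPrime n = q := by
    apply IsLeast.csInf_eq
    refine ⟨⟨hq, h2⟩, ?_⟩
    rintro r ⟨hr, hrn⟩
    by_contra hc
    exact h r hr (by omega) (by omega)
  rw [δ, e1, e2]

theorem P_le {x m : ℕ} (h : ∀ r : ℕ, r.Prime → r ∣ x → r ≤ m) : P x ≤ m := by
  apply Finset.sup_le
  intro r hr
  exact h r (Nat.prime_of_mem_primeFactors hr) (Nat.dvd_of_mem_primeFactors hr)

theorem le_P {x m : ℕ} (hx : x ≠ 0) (hm : m.Prime) (h : m ∣ x) : m ≤ P x :=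
  Finset.le_sup (f := id) (Nat.mem_primeFactors.2 ⟨hm, h, hx⟩)

theorem le_of_dvd_pow {r s k m : ℕ} (hr : r.Prime) (hs : 0 < s) (hsm : s ≤ m)
    (h : r ∣ s ^ k) : r ≤ m :=
  (Nat.le_of_dvd hs (hr.dvd_of_dvd_pow h)).trans hsm

/-- The primes around the first number. -/
theorem gap1 (r : ℕ) (hr : r.Prime) (h1 : 10088093 < r) (h2 : r < 10088207) : False := by
  interval_cases r <;> revert hr <;> norm_num

/-- The primes around the second number. -/
theorem gap2 (r : ℕ) (hr : r.Prime) (h1 : 11859187 < r) (h2 : r < 11859233) : False := by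
  interval_cases r <;> revert hr <;> norm_num

theorem P1 : P (10088144 * (10088144 + 1)) = 43 := by
  apply le_antisymm
  · apply P_le
    intro r hr h
    have e : 10088144 * (10088144 + 1) =
        2 ^ 4 * (11 ^ 1 * (31 ^ 1 * (43 ^ 2 * (3 ^ 5 * (5 ^ 1 * (19 ^ 2 * 23 ^ 1)))))) := by
      norm_num
    rw [e] at h
    rcases hr.dvd_mul.1 h with h | h
    · exact le_of_dvd_pow hr (by norm_num) (by norm_num) h
    rcases hr.dvd_mul.1 h with h | h
    · exact le_of_dvd_pow hr (by norm_num) (by norm_num) h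
    rcases hr.dvd_mul.1 h with h | h
    · exact le_of_dvd_pow hr (by norm_num) (by norm_num) h
    rcases hr.dvd_mul.1 h with h | h
    · exact le_of_dvd_pow hr (by norm_num) (by norm_num) h
    rcases hr.dvd_mul.1 h with h | h
    · exact le_of_dvd_pow hr (by norm_num) (by norm_num) h
    rcases hr.dvd_mul.1 h with h | h
    · exact le_of_dvd_pow hr (by norm_num) (by norm_num) h
    rcases hr.dvd_mul.1 h with h | h
    · exact le_of_dvd_pow hr (by norm_num) (by norm_num) h
    · exact le_of_dvd_pow hr (by norm_num) (by norm_num) h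
  · exact le_P (by norm_num) (by norm_num) (by norm_num)

theorem P2 : P (11859210 * (11859210 + 1)) = 19 := by
  apply le_antisymm
  · apply P_le
    intro r hr h
    have e : 11859210 * (11859210 + 1) =
        2 ^ 1 * (3 ^ 4 * (5 ^ 1 * (11 ^ 4 * (7 ^ 1 * (13 ^ 1 * 19 ^ 4))))) := by
      norm_num
    rw [e] at h
    rcases hr.dvd_mul.1 h with h | h
    · exact le_of_dvd_pow hr (by norm_num) (by norm_num) h
    rcases hr.dvd_mul.1 h with h | h
    · exact le_of_dvd_pow hr (by norm_num) (by norm_num) h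
    rcases hr.dvd_mul.1 h with h | h
    · exact le_of_dvd_pow hr (by norm_num) (by norm_num) h
    rcases hr.dvd_mul.1 h with h | h
    · exact le_of_dvd_pow hr (by norm_num) (by norm_num) h
    rcases hr.dvd_mul.1 h with h | h
    · exact le_of_dvd_pow hr (by norm_num) (by norm_num) h
    rcases hr.dvd_mul.1 h with h | h
    · exact le_of_dvd_pow hr (by norm_num) (by norm_num) h
    · exact le_of_dvd_pow hr (by norm_num) (by norm_num) h
  · exact le_P (by norm_num) (by norm_num) (by norm_num)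

theorem D1 : δ 10088144 = 51 := by
  rw [δ_eq (p := 10088093) (q := 10088207) (by norm_num) (by norm_num) (by norm_num)
    (by norm_num) gap1]
  norm_num

theorem D2 : δ 11859210 = 23 := by
  rw [δ_eq (p := 11859187) (q := 11859233) (by norm_num) (by norm_num) (by norm_num)
    (by norm_num) gap2]
  norm_num

theorem step {p a m c b c' e : ℕ} (h : a ^ m ≡ c [MOD p]) (he : 2 * m + b = e)
    (h' : c * c * a ^ b % p = c' % p) : a ^ e ≡ c' [MOD p] := by
  have h1 : a ^ m * a ^ m * a ^ b ≡ c * c * a ^ b [MOD p] := (h.mul h).mul_right (a ^ b)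
  have h2 : a ^ e = a ^ m * a ^ m * a ^ b := by rw [← he, pow_add, two_mul, pow_add]
  rw [h2]
  exact h1.trans h'

theorem pow_ne {p a e e' c : ℕ} (he : e' = e) (h : a ^ e ≡ c [MOD p])
    (h' : c % p ≠ 1 % p) : ((a : ℕ) : ZMod p) ^ e' ≠ 1 := by
  intro hc
  rw [he] at hc
  apply h'
  have h1 : ((a ^ e : ℕ) : ZMod p) = ((1 : ℕ) : ZMod p) := by push_cast; exact hc
  exact (h.symm.trans ((ZMod.natCast_eq_natCast_iff _ _ _).1 h1))

theorem pow_eq {p a e e' : ℕ} (he : e' = e) (h : a ^ e ≡ 1 [MOD p]) :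
    ((a : ℕ) : ZMod p) ^ e' = 1 := by
  rw [he]
  have h1 := (ZMod.natCast_eq_natCast_iff _ _ _).2 h
  push_cast at h1
  exact h1

theorem prime3 : Nat.Prime 45105689107 := by
  have h0 : 2 ^ 1 ≡ 2 [MOD 45105689107] := rfl
  have h1 : 2 ^ 2 ≡ 4 [MOD 45105689107] := step (b := 0) h0 (by norm_num) (by norm_num)
  have h2 : 2 ^ 5 ≡ 32 [MOD 45105689107] := step (b := 1) h1 (by norm_num) (by norm_num)
  have h3 : 2 ^ 10 ≡ 1024 [MOD 45105689107] := step (b := 0) h2 (by norm_num) (by norm_num)
  have h4 : 2 ^ 21 ≡ 2097152 [MOD 45105689107] := step (b := 1) h3 (by norm_num) (by norm_num)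
  have h5 : 2 ^ 42 ≡ 22794667725 [MOD 45105689107] := step (b := 0) h4 (by norm_num) (by norm_num)
  have h6 : 2 ^ 84 ≡ 14160053757 [MOD 45105689107] := step (b := 0) h5 (by norm_num) (by norm_num)
  have h7 : 2 ^ 168 ≡ 34511438578 [MOD 45105689107] := step (b := 0) h6 (by norm_num) (by norm_num)
  have h8 : 2 ^ 336 ≡ 26242795628 [MOD 45105689107] := step (b := 0) h7 (by norm_num) (by norm_num)
  have h9 : 2 ^ 672 ≡ 41939651185 [MOD 45105689107] := step (b := 0) h8 (by norm_num) (by norm_num)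
  have h10 : 2 ^ 1344 ≡ 14787622775 [MOD 45105689107] := step (b := 0) h9 (by norm_num) (by norm_num)
  have h11 : 2 ^ 2688 ≡ 14259277044 [MOD 45105689107] := step (b := 0) h10 (by norm_num) (by norm_num)
  have h12 : 2 ^ 5377 ≡ 15609223241 [MOD 45105689107] := step (b := 1) h11 (by norm_num) (by norm_num)
  have h13 : 2 ^ 10754 ≡ 40323449254 [MOD 45105689107] := step (b := 0) h12 (by norm_num) (by norm_num)
  have h14 : 2 ^ 21508 ≡ 38881074266 [MOD 45105689107] := step (b := 0) h13 (by norm_num) (by norm_num)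
  have h15 : 2 ^ 43016 ≡ 35268425417 [MOD 45105689107] := step (b := 0) h14 (by norm_num) (by norm_num)
  have h16 : 2 ^ 86032 ≡ 8228889435 [MOD 45105689107] := step (b := 0) h15 (by norm_num) (by norm_num)
  have h17 : 2 ^ 172064 ≡ 11509359721 [MOD 45105689107] := step (b := 0) h16 (by norm_num) (by norm_num)
  have h18 : 2 ^ 344129 ≡ 1741657215 [MOD 45105689107] := step (b := 1) h17 (by norm_num) (by norm_num)
  have h19 : 2 ^ 688258 ≡ 38474058228 [MOD 45105689107] := step (b := 0) h18 (by norm_num) (by norm_num)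
  have h20 : 2 ^ 1376516 ≡ 3384230058 [MOD 45105689107] := step (b := 0) h19 (by norm_num) (by norm_num)
  have h21 : 2 ^ 2753032 ≡ 6110768549 [MOD 45105689107] := step (b := 0) h20 (by norm_num) (by norm_num)
  have h22 : 2 ^ 5506065 ≡ 36369779287 [MOD 45105689107] := step (b := 1) h21 (by norm_num) (by norm_num)
  have h23 : 2 ^ 11012131 ≡ 22461964269 [MOD 45105689107] := step (b := 1) h22 (by norm_num) (by norm_num)
  have h24 : 2 ^ 22024262 ≡ 24866218661 [MOD 45105689107] := step (b := 0) h23 (by norm_num) (by norm_num)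
  have h25 : 2 ^ 44048524 ≡ 16466196940 [MOD 45105689107] := step (b := 0) h24 (by norm_num) (by norm_num)
  have h26 : 2 ^ 88097049 ≡ 13806284982 [MOD 45105689107] := step (b := 1) h25 (by norm_num) (by norm_num)
  have h27 : 2 ^ 176194098 ≡ 28905510388 [MOD 45105689107] := step (b := 0) h26 (by norm_num) (by norm_num)
  have h28 : 2 ^ 352388196 ≡ 16730615520 [MOD 45105689107] := step (b := 0) h27 (by norm_num) (by norm_num)
  have h29 : 2 ^ 704776392 ≡ 592039664 [MOD 45105689107] := step (b := 0) h28 (by norm_num) (by norm_num)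
  have h30 : 2 ^ 1409552784 ≡ 21275739629 [MOD 45105689107] := step (b := 0) h29 (by norm_num) (by norm_num)
  have h31 : 2 ^ 2819105569 ≡ 43639856333 [MOD 45105689107] := step (b := 1) h30 (by norm_num) (by norm_num)
  have h32 : 2 ^ 5638211138 ≡ 19031962754 [MOD 45105689107] := step (b := 0) h31 (by norm_num) (by norm_num)
  have h33 : 2 ^ 11276422276 ≡ 33099789363 [MOD 45105689107] := step (b := 0) h32 (by norm_num) (by norm_num)
  have h34 : 2 ^ 22552844553 ≡ 45105689106 [MOD 45105689107] := step (b := 1) h33 (by norm_num) (by norm_num)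
  have h35 : 2 ^ 45105689106 ≡ 1 [MOD 45105689107] := step (b := 0) h34 (by norm_num) (by norm_num)
  have k2_0 : 2 ^ 1 ≡ 2 [MOD 45105689107] := rfl
  have k2_1 : 2 ^ 2 ≡ 4 [MOD 45105689107] := step (b := 0) k2_0 (by norm_num) (by norm_num)
  have k2_2 : 2 ^ 5 ≡ 32 [MOD 45105689107] := step (b := 1) k2_1 (by norm_num) (by norm_num)
  have k2_3 : 2 ^ 10 ≡ 1024 [MOD 45105689107] := step (b := 0) k2_2 (by norm_num) (by norm_num)
  have k2_4 : 2 ^ 21 ≡ 2097152 [MOD 45105689107] := step (b := 1) k2_3 (by norm_num) (by norm_num)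
  have k2_5 : 2 ^ 42 ≡ 22794667725 [MOD 45105689107] := step (b := 0) k2_4 (by norm_num) (by norm_num)
  have k2_6 : 2 ^ 84 ≡ 14160053757 [MOD 45105689107] := step (b := 0) k2_5 (by norm_num) (by norm_num)
  have k2_7 : 2 ^ 168 ≡ 34511438578 [MOD 45105689107] := step (b := 0) k2_6 (by norm_num) (by norm_num)
  have k2_8 : 2 ^ 336 ≡ 26242795628 [MOD 45105689107] := step (b := 0) k2_7 (by norm_num) (by norm_num)
  have k2_9 : 2 ^ 672 ≡ 41939651185 [MOD 45105689107] := step (b := 0) k2_8 (by norm_num) (by norm_num)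
  have k2_10 : 2 ^ 1344 ≡ 14787622775 [MOD 45105689107] := step (b := 0) k2_9 (by norm_num) (by norm_num)
  have k2_11 : 2 ^ 2688 ≡ 14259277044 [MOD 45105689107] := step (b := 0) k2_10 (by norm_num) (by norm_num)
  have k2_12 : 2 ^ 5377 ≡ 15609223241 [MOD 45105689107] := step (b := 1) k2_11 (by norm_num) (by norm_num)
  have k2_13 : 2 ^ 10754 ≡ 40323449254 [MOD 45105689107] := step (b := 0) k2_12 (by norm_num) (by norm_num)
  have k2_14 : 2 ^ 21508 ≡ 38881074266 [MOD 45105689107] := step (b := 0) k2_13 (by norm_num) (by norm_num)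
  have k2_15 : 2 ^ 43016 ≡ 35268425417 [MOD 45105689107] := step (b := 0) k2_14 (by norm_num) (by norm_num)
  have k2_16 : 2 ^ 86032 ≡ 8228889435 [MOD 45105689107] := step (b := 0) k2_15 (by norm_num) (by norm_num)
  have k2_17 : 2 ^ 172064 ≡ 11509359721 [MOD 45105689107] := step (b := 0) k2_16 (by norm_num) (by norm_num)
  have k2_18 : 2 ^ 344129 ≡ 1741657215 [MOD 45105689107] := step (b := 1) k2_17 (by norm_num) (by norm_num)
  have k2_19 : 2 ^ 688258 ≡ 38474058228 [MOD 45105689107] := step (b := 0) k2_18 (by norm_num) (by norm_num)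
  have k2_20 : 2 ^ 1376516 ≡ 3384230058 [MOD 45105689107] := step (b := 0) k2_19 (by norm_num) (by norm_num)
  have k2_21 : 2 ^ 2753032 ≡ 6110768549 [MOD 45105689107] := step (b := 0) k2_20 (by norm_num) (by norm_num)
  have k2_22 : 2 ^ 5506065 ≡ 36369779287 [MOD 45105689107] := step (b := 1) k2_21 (by norm_num) (by norm_num)
  have k2_23 : 2 ^ 11012131 ≡ 22461964269 [MOD 45105689107] := step (b := 1) k2_22 (by norm_num) (by norm_num)
  have k2_24 : 2 ^ 22024262 ≡ 24866218661 [MOD 45105689107] := step (b := 0) k2_23 (by norm_num) (by norm_num)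
  have k2_25 : 2 ^ 44048524 ≡ 16466196940 [MOD 45105689107] := step (b := 0) k2_24 (by norm_num) (by norm_num)
  have k2_26 : 2 ^ 88097049 ≡ 13806284982 [MOD 45105689107] := step (b := 1) k2_25 (by norm_num) (by norm_num)
  have k2_27 : 2 ^ 176194098 ≡ 28905510388 [MOD 45105689107] := step (b := 0) k2_26 (by norm_num) (by norm_num)
  have k2_28 : 2 ^ 352388196 ≡ 16730615520 [MOD 45105689107] := step (b := 0) k2_27 (by norm_num) (by norm_num)
  have k2_29 : 2 ^ 704776392 ≡ 592039664 [MOD 45105689107] := step (b := 0) k2_28 (by norm_num) (by norm_num)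
  have k2_30 : 2 ^ 1409552784 ≡ 21275739629 [MOD 45105689107] := step (b := 0) k2_29 (by norm_num) (by norm_num)
  have k2_31 : 2 ^ 2819105569 ≡ 43639856333 [MOD 45105689107] := step (b := 1) k2_30 (by norm_num) (by norm_num)
  have k2_32 : 2 ^ 5638211138 ≡ 19031962754 [MOD 45105689107] := step (b := 0) k2_31 (by norm_num) (by norm_num)
  have k2_33 : 2 ^ 11276422276 ≡ 33099789363 [MOD 45105689107] := step (b := 0) k2_32 (by norm_num) (by norm_num)
  have k2_34 : 2 ^ 22552844553 ≡ 45105689106 [MOD 45105689107] := step (b := 1) k2_33 (by norm_num) (by norm_num)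
  have k3_0 : 2 ^ 1 ≡ 2 [MOD 45105689107] := rfl
  have k3_1 : 2 ^ 3 ≡ 8 [MOD 45105689107] := step (b := 1) k3_0 (by norm_num) (by norm_num)
  have k3_2 : 2 ^ 7 ≡ 128 [MOD 45105689107] := step (b := 1) k3_1 (by norm_num) (by norm_num)
  have k3_3 : 2 ^ 14 ≡ 16384 [MOD 45105689107] := step (b := 0) k3_2 (by norm_num) (by norm_num)
  have k3_4 : 2 ^ 28 ≡ 268435456 [MOD 45105689107] := step (b := 0) k3_3 (by norm_num) (by norm_num)
  have k3_5 : 2 ^ 56 ≡ 37835889547 [MOD 45105689107] := step (b := 0) k3_4 (by norm_num) (by norm_num)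
  have k3_6 : 2 ^ 112 ≡ 6685898562 [MOD 45105689107] := step (b := 0) k3_5 (by norm_num) (by norm_num)
  have k3_7 : 2 ^ 224 ≡ 17714917600 [MOD 45105689107] := step (b := 0) k3_6 (by norm_num) (by norm_num)
  have k3_8 : 2 ^ 448 ≡ 13844836557 [MOD 45105689107] := step (b := 0) k3_7 (by norm_num) (by norm_num)
  have k3_9 : 2 ^ 896 ≡ 17028241921 [MOD 45105689107] := step (b := 0) k3_8 (by norm_num) (by norm_num)
  have k3_10 : 2 ^ 1792 ≡ 38510131142 [MOD 45105689107] := step (b := 0) k3_9 (by norm_num) (by norm_num)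
  have k3_11 : 2 ^ 3584 ≡ 27955311915 [MOD 45105689107] := step (b := 0) k3_10 (by norm_num) (by norm_num)
  have k3_12 : 2 ^ 7169 ≡ 35271314720 [MOD 45105689107] := step (b := 1) k3_11 (by norm_num) (by norm_num)
  have k3_13 : 2 ^ 14338 ≡ 3316316948 [MOD 45105689107] := step (b := 0) k3_12 (by norm_num) (by norm_num)
  have k3_14 : 2 ^ 28677 ≡ 23852061417 [MOD 45105689107] := step (b := 1) k3_13 (by norm_num) (by norm_num)
  have k3_15 : 2 ^ 57354 ≡ 21576419006 [MOD 45105689107] := step (b := 0) k3_14 (by norm_num) (by norm_num)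
  have k3_16 : 2 ^ 114709 ≡ 33873688616 [MOD 45105689107] := step (b := 1) k3_15 (by norm_num) (by norm_num)
  have k3_17 : 2 ^ 229419 ≡ 5809698319 [MOD 45105689107] := step (b := 1) k3_16 (by norm_num) (by norm_num)
  have k3_18 : 2 ^ 458838 ≡ 1690312213 [MOD 45105689107] := step (b := 0) k3_17 (by norm_num) (by norm_num)
  have k3_19 : 2 ^ 917677 ≡ 4138930758 [MOD 45105689107] := step (b := 1) k3_18 (by norm_num) (by norm_num)
  have k3_20 : 2 ^ 1835355 ≡ 24675331282 [MOD 45105689107] := step (b := 1) k3_19 (by norm_num) (by norm_num)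
  have k3_21 : 2 ^ 3670710 ≡ 9349870407 [MOD 45105689107] := step (b := 0) k3_20 (by norm_num) (by norm_num)
  have k3_22 : 2 ^ 7341420 ≡ 24213886923 [MOD 45105689107] := step (b := 0) k3_21 (by norm_num) (by norm_num)
  have k3_23 : 2 ^ 14682841 ≡ 18282795241 [MOD 45105689107] := step (b := 1) k3_22 (by norm_num) (by norm_num)
  have k3_24 : 2 ^ 29365683 ≡ 30305556261 [MOD 45105689107] := step (b := 1) k3_23 (by norm_num) (by norm_num)
  have k3_25 : 2 ^ 58731366 ≡ 30135135052 [MOD 45105689107] := step (b := 0) k3_24 (by norm_num) (by norm_num)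
  have k3_26 : 2 ^ 117462732 ≡ 13161215721 [MOD 45105689107] := step (b := 0) k3_25 (by norm_num) (by norm_num)
  have k3_27 : 2 ^ 234925464 ≡ 29724006172 [MOD 45105689107] := step (b := 0) k3_26 (by norm_num) (by norm_num)
  have k3_28 : 2 ^ 469850928 ≡ 35350273780 [MOD 45105689107] := step (b := 0) k3_27 (by norm_num) (by norm_num)
  have k3_29 : 2 ^ 939701856 ≡ 21277605415 [MOD 45105689107] := step (b := 0) k3_28 (by norm_num) (by norm_num)
  have k3_30 : 2 ^ 1879403712 ≡ 39891693941 [MOD 45105689107] := step (b := 0) k3_29 (by norm_num) (by norm_num)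
  have k3_31 : 2 ^ 3758807425 ≡ 35343914111 [MOD 45105689107] := step (b := 1) k3_30 (by norm_num) (by norm_num)
  have k3_32 : 2 ^ 7517614851 ≡ 37652792882 [MOD 45105689107] := step (b := 1) k3_31 (by norm_num) (by norm_num)
  have k3_33 : 2 ^ 15035229702 ≡ 37652792881 [MOD 45105689107] := step (b := 0) k3_32 (by norm_num) (by norm_num)
  have k4889_0 : 2 ^ 1 ≡ 2 [MOD 45105689107] := rfl
  have k4889_1 : 2 ^ 2 ≡ 4 [MOD 45105689107] := step (b := 0) k4889_0 (by norm_num) (by norm_num)
  have k4889_2 : 2 ^ 4 ≡ 16 [MOD 45105689107] := step (b := 0) k4889_1 (by norm_num) (by norm_num)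
  have k4889_3 : 2 ^ 8 ≡ 256 [MOD 45105689107] := step (b := 0) k4889_2 (by norm_num) (by norm_num)
  have k4889_4 : 2 ^ 17 ≡ 131072 [MOD 45105689107] := step (b := 1) k4889_3 (by norm_num) (by norm_num)
  have k4889_5 : 2 ^ 35 ≡ 34359738368 [MOD 45105689107] := step (b := 1) k4889_4 (by norm_num) (by norm_num)
  have k4889_6 : 2 ^ 70 ≡ 15728940547 [MOD 45105689107] := step (b := 0) k4889_5 (by norm_num) (by norm_num)
  have k4889_7 : 2 ^ 140 ≡ 44016885270 [MOD 45105689107] := step (b := 0) k4889_6 (by norm_num) (by norm_num)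
  have k4889_8 : 2 ^ 281 ≡ 6534889446 [MOD 45105689107] := step (b := 1) k4889_7 (by norm_num) (by norm_num)
  have k4889_9 : 2 ^ 563 ≡ 33270148005 [MOD 45105689107] := step (b := 1) k4889_8 (by norm_num) (by norm_num)
  have k4889_10 : 2 ^ 1126 ≡ 33220494858 [MOD 45105689107] := step (b := 0) k4889_9 (by norm_num) (by norm_num)
  have k4889_11 : 2 ^ 2252 ≡ 11500787092 [MOD 45105689107] := step (b := 0) k4889_10 (by norm_num) (by norm_num)
  have k4889_12 : 2 ^ 4504 ≡ 34122319180 [MOD 45105689107] := step (b := 0) k4889_11 (by norm_num) (by norm_num)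
  have k4889_13 : 2 ^ 9009 ≡ 35752140725 [MOD 45105689107] := step (b := 1) k4889_12 (by norm_num) (by norm_num)
  have k4889_14 : 2 ^ 18019 ≡ 43848857889 [MOD 45105689107] := step (b := 1) k4889_13 (by norm_num) (by norm_num)
  have k4889_15 : 2 ^ 36038 ≡ 23053887884 [MOD 45105689107] := step (b := 0) k4889_14 (by norm_num) (by norm_num)
  have k4889_16 : 2 ^ 72077 ≡ 24383896712 [MOD 45105689107] := step (b := 1) k4889_15 (by norm_num) (by norm_num)
  have k4889_17 : 2 ^ 144155 ≡ 7961329876 [MOD 45105689107] := step (b := 1) k4889_16 (by norm_num) (by norm_num)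
  have k4889_18 : 2 ^ 288311 ≡ 38722467750 [MOD 45105689107] := step (b := 1) k4889_17 (by norm_num) (by norm_num)
  have k4889_19 : 2 ^ 576622 ≡ 14825057238 [MOD 45105689107] := step (b := 0) k4889_18 (by norm_num) (by norm_num)
  have k4889_20 : 2 ^ 1153244 ≡ 7352826868 [MOD 45105689107] := step (b := 0) k4889_19 (by norm_num) (by norm_num)
  have k4889_21 : 2 ^ 2306488 ≡ 2401121533 [MOD 45105689107] := step (b := 0) k4889_20 (by norm_num) (by norm_num)
  have k4889_22 : 2 ^ 4612977 ≡ 34360186808 [MOD 45105689107] := step (b := 1) k4889_21 (by norm_num) (by norm_num)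
  have k4889_23 : 2 ^ 9225954 ≡ 30908694303 [MOD 45105689107] := step (b := 0) k4889_22 (by norm_num) (by norm_num)
  have k170851_0 : 2 ^ 1 ≡ 2 [MOD 45105689107] := rfl
  have k170851_1 : 2 ^ 2 ≡ 4 [MOD 45105689107] := step (b := 0) k170851_0 (by norm_num) (by norm_num)
  have k170851_2 : 2 ^ 4 ≡ 16 [MOD 45105689107] := step (b := 0) k170851_1 (by norm_num) (by norm_num)
  have k170851_3 : 2 ^ 8 ≡ 256 [MOD 45105689107] := step (b := 0) k170851_2 (by norm_num) (by norm_num)
  have k170851_4 : 2 ^ 16 ≡ 65536 [MOD 45105689107] := step (b := 0) k170851_3 (by norm_num) (by norm_num)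
  have k170851_5 : 2 ^ 32 ≡ 4294967296 [MOD 45105689107] := step (b := 0) k170851_4 (by norm_num) (by norm_num)
  have k170851_6 : 2 ^ 64 ≡ 33370255134 [MOD 45105689107] := step (b := 0) k170851_5 (by norm_num) (by norm_num)
  have k170851_7 : 2 ^ 128 ≡ 10384173834 [MOD 45105689107] := step (b := 0) k170851_6 (by norm_num) (by norm_num)
  have k170851_8 : 2 ^ 257 ≡ 7941634267 [MOD 45105689107] := step (b := 1) k170851_7 (by norm_num) (by norm_num)
  have k170851_9 : 2 ^ 515 ≡ 13409343618 [MOD 45105689107] := step (b := 1) k170851_8 (by norm_num) (by norm_num)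
  have k170851_10 : 2 ^ 1031 ≡ 37250741769 [MOD 45105689107] := step (b := 1) k170851_9 (by norm_num) (by norm_num)
  have k170851_11 : 2 ^ 2062 ≡ 24155201463 [MOD 45105689107] := step (b := 0) k170851_10 (by norm_num) (by norm_num)
  have k170851_12 : 2 ^ 4125 ≡ 17598227412 [MOD 45105689107] := step (b := 1) k170851_11 (by norm_num) (by norm_num)
  have k170851_13 : 2 ^ 8250 ≡ 9581426945 [MOD 45105689107] := step (b := 0) k170851_12 (by norm_num) (by norm_num)
  have k170851_14 : 2 ^ 16500 ≡ 20689310947 [MOD 45105689107] := step (b := 0) k170851_13 (by norm_num) (by norm_num)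
  have k170851_15 : 2 ^ 33000 ≡ 9291314878 [MOD 45105689107] := step (b := 0) k170851_14 (by norm_num) (by norm_num)
  have k170851_16 : 2 ^ 66001 ≡ 38172375614 [MOD 45105689107] := step (b := 1) k170851_15 (by norm_num) (by norm_num)
  have k170851_17 : 2 ^ 132003 ≡ 20553317886 [MOD 45105689107] := step (b := 1) k170851_16 (by norm_num) (by norm_num)
  have k170851_18 : 2 ^ 264006 ≡ 11718472460 [MOD 45105689107] := step (b := 0) k170851_17 (by norm_num) (by norm_num)
  apply lucas_primality 45105689107 ((2 : ℕ) : ZMod 45105689107)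
  · exact pow_eq (by norm_num) h35
  · intro q hq hd
    have e : 45105689107 - 1 = 2 ^ 1 * 3 ^ 3 * 4889 ^ 1 * 170851 ^ 1 := by norm_num
    rw [e] at hd
    rcases hq.dvd_mul.1 hd with hd | hd
    rotate_left
    · have hq' := (Nat.prime_dvd_prime_iff_eq hq (by norm_num)).1 (hq.dvd_of_dvd_pow hd)
      subst hq'
      exact pow_ne (by norm_num) k170851_18 (by norm_num)
    rcases hq.dvd_mul.1 hd with hd | hd
    rotate_left
    · have hq' := (Nat.prime_dvd_prime_iff_eq hq (by norm_num)).1 (hq.dvd_of_dvd_pow hd)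
      subst hq'
      exact pow_ne (by norm_num) k4889_23 (by norm_num)
    rcases hq.dvd_mul.1 hd with hd | hd
    rotate_left
    · have hq' := (Nat.prime_dvd_prime_iff_eq hq (by norm_num)).1 (hq.dvd_of_dvd_pow hd)
      subst hq'
      exact pow_ne (by norm_num) k3_33 (by norm_num)
    have hq' := (Nat.prime_dvd_prime_iff_eq hq (by norm_num)).1 (hq.dvd_of_dvd_pow hd)
    subst hq'
    exact pow_ne (by norm_num) k2_34 (by norm_num)

theorem prime3' : Nat.Prime 45105689249 := by
  have h0 : 3 ^ 1 ≡ 3 [MOD 45105689249] := rfl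
  have h1 : 3 ^ 2 ≡ 9 [MOD 45105689249] := step (b := 0) h0 (by norm_num) (by norm_num)
  have h2 : 3 ^ 5 ≡ 243 [MOD 45105689249] := step (b := 1) h1 (by norm_num) (by norm_num)
  have h3 : 3 ^ 10 ≡ 59049 [MOD 45105689249] := step (b := 0) h2 (by norm_num) (by norm_num)
  have h4 : 3 ^ 21 ≡ 10460353203 [MOD 45105689249] := step (b := 1) h3 (by norm_num) (by norm_num)
  have h5 : 3 ^ 42 ≡ 43255053861 [MOD 45105689249] := step (b := 0) h4 (by norm_num) (by norm_num)
  have h6 : 3 ^ 84 ≡ 35128196269 [MOD 45105689249] := step (b := 0) h5 (by norm_num) (by norm_num)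
  have h7 : 3 ^ 168 ≡ 39474590678 [MOD 45105689249] := step (b := 0) h6 (by norm_num) (by norm_num)
  have h8 : 3 ^ 336 ≡ 35961158160 [MOD 45105689249] := step (b := 0) h7 (by norm_num) (by norm_num)
  have h9 : 3 ^ 672 ≡ 43885017096 [MOD 45105689249] := step (b := 0) h8 (by norm_num) (by norm_num)
  have h10 : 3 ^ 1344 ≡ 41645947833 [MOD 45105689249] := step (b := 0) h9 (by norm_num) (by norm_num)
  have h11 : 3 ^ 2688 ≡ 17713201331 [MOD 45105689249] := step (b := 0) h10 (by norm_num) (by norm_num)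
  have h12 : 3 ^ 5377 ≡ 12174825451 [MOD 45105689249] := step (b := 1) h11 (by norm_num) (by norm_num)
  have h13 : 3 ^ 10754 ≡ 24646151203 [MOD 45105689249] := step (b := 0) h12 (by norm_num) (by norm_num)
  have h14 : 3 ^ 21508 ≡ 4632974209 [MOD 45105689249] := step (b := 0) h13 (by norm_num) (by norm_num)
  have h15 : 3 ^ 43016 ≡ 40126389556 [MOD 45105689249] := step (b := 0) h14 (by norm_num) (by norm_num)
  have h16 : 3 ^ 86032 ≡ 33658351016 [MOD 45105689249] := step (b := 0) h15 (by norm_num) (by norm_num)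
  have h17 : 3 ^ 172064 ≡ 23114336967 [MOD 45105689249] := step (b := 0) h16 (by norm_num) (by norm_num)
  have h18 : 3 ^ 344129 ≡ 36106688725 [MOD 45105689249] := step (b := 1) h17 (by norm_num) (by norm_num)
  have h19 : 3 ^ 688258 ≡ 16747526080 [MOD 45105689249] := step (b := 0) h18 (by norm_num) (by norm_num)
  have h20 : 3 ^ 1376516 ≡ 8351003508 [MOD 45105689249] := step (b := 0) h19 (by norm_num) (by norm_num)
  have h21 : 3 ^ 2753032 ≡ 1437800570 [MOD 45105689249] := step (b := 0) h20 (by norm_num) (by norm_num)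
  have h22 : 3 ^ 5506065 ≡ 2994037804 [MOD 45105689249] := step (b := 1) h21 (by norm_num) (by norm_num)
  have h23 : 3 ^ 11012131 ≡ 43819883183 [MOD 45105689249] := step (b := 1) h22 (by norm_num) (by norm_num)
  have h24 : 3 ^ 22024262 ≡ 26377248457 [MOD 45105689249] := step (b := 0) h23 (by norm_num) (by norm_num)
  have h25 : 3 ^ 44048524 ≡ 1944198575 [MOD 45105689249] := step (b := 0) h24 (by norm_num) (by norm_num)
  have h26 : 3 ^ 88097049 ≡ 29074395789 [MOD 45105689249] := step (b := 1) h25 (by norm_num) (by norm_num)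
  have h27 : 3 ^ 176194098 ≡ 43702234782 [MOD 45105689249] := step (b := 0) h26 (by norm_num) (by norm_num)
  have h28 : 3 ^ 352388197 ≡ 3768945879 [MOD 45105689249] := step (b := 1) h27 (by norm_num) (by norm_num)
  have h29 : 3 ^ 704776394 ≡ 9359807613 [MOD 45105689249] := step (b := 0) h28 (by norm_num) (by norm_num)
  have h30 : 3 ^ 1409552789 ≡ 20793820046 [MOD 45105689249] := step (b := 1) h29 (by norm_num) (by norm_num)
  have h31 : 3 ^ 2819105578 ≡ 33160430763 [MOD 45105689249] := step (b := 0) h30 (by norm_num) (by norm_num)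
  have h32 : 3 ^ 5638211156 ≡ 16996739247 [MOD 45105689249] := step (b := 0) h31 (by norm_num) (by norm_num)
  have h33 : 3 ^ 11276422312 ≡ 25371809100 [MOD 45105689249] := step (b := 0) h32 (by norm_num) (by norm_num)
  have h34 : 3 ^ 22552844624 ≡ 45105689248 [MOD 45105689249] := step (b := 0) h33 (by norm_num) (by norm_num)
  have h35 : 3 ^ 45105689248 ≡ 1 [MOD 45105689249] := step (b := 0) h34 (by norm_num) (by norm_num)
  have k2_0 : 3 ^ 1 ≡ 3 [MOD 45105689249] := rfl
  have k2_1 : 3 ^ 2 ≡ 9 [MOD 45105689249] := step (b := 0) k2_0 (by norm_num) (by norm_num)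
  have k2_2 : 3 ^ 5 ≡ 243 [MOD 45105689249] := step (b := 1) k2_1 (by norm_num) (by norm_num)
  have k2_3 : 3 ^ 10 ≡ 59049 [MOD 45105689249] := step (b := 0) k2_2 (by norm_num) (by norm_num)
  have k2_4 : 3 ^ 21 ≡ 10460353203 [MOD 45105689249] := step (b := 1) k2_3 (by norm_num) (by norm_num)
  have k2_5 : 3 ^ 42 ≡ 43255053861 [MOD 45105689249] := step (b := 0) k2_4 (by norm_num) (by norm_num)
  have k2_6 : 3 ^ 84 ≡ 35128196269 [MOD 45105689249] := step (b := 0) k2_5 (by norm_num) (by norm_num)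
  have k2_7 : 3 ^ 168 ≡ 39474590678 [MOD 45105689249] := step (b := 0) k2_6 (by norm_num) (by norm_num)
  have k2_8 : 3 ^ 336 ≡ 35961158160 [MOD 45105689249] := step (b := 0) k2_7 (by norm_num) (by norm_num)
  have k2_9 : 3 ^ 672 ≡ 43885017096 [MOD 45105689249] := step (b := 0) k2_8 (by norm_num) (by norm_num)
  have k2_10 : 3 ^ 1344 ≡ 41645947833 [MOD 45105689249] := step (b := 0) k2_9 (by norm_num) (by norm_num)
  have k2_11 : 3 ^ 2688 ≡ 17713201331 [MOD 45105689249] := step (b := 0) k2_10 (by norm_num) (by norm_num)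
  have k2_12 : 3 ^ 5377 ≡ 12174825451 [MOD 45105689249] := step (b := 1) k2_11 (by norm_num) (by norm_num)
  have k2_13 : 3 ^ 10754 ≡ 24646151203 [MOD 45105689249] := step (b := 0) k2_12 (by norm_num) (by norm_num)
  have k2_14 : 3 ^ 21508 ≡ 4632974209 [MOD 45105689249] := step (b := 0) k2_13 (by norm_num) (by norm_num)
  have k2_15 : 3 ^ 43016 ≡ 40126389556 [MOD 45105689249] := step (b := 0) k2_14 (by norm_num) (by norm_num)
  have k2_16 : 3 ^ 86032 ≡ 33658351016 [MOD 45105689249] := step (b := 0) k2_15 (by norm_num) (by norm_num)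
  have k2_17 : 3 ^ 172064 ≡ 23114336967 [MOD 45105689249] := step (b := 0) k2_16 (by norm_num) (by norm_num)
  have k2_18 : 3 ^ 344129 ≡ 36106688725 [MOD 45105689249] := step (b := 1) k2_17 (by norm_num) (by norm_num)
  have k2_19 : 3 ^ 688258 ≡ 16747526080 [MOD 45105689249] := step (b := 0) k2_18 (by norm_num) (by norm_num)
  have k2_20 : 3 ^ 1376516 ≡ 8351003508 [MOD 45105689249] := step (b := 0) k2_19 (by norm_num) (by norm_num)
  have k2_21 : 3 ^ 2753032 ≡ 1437800570 [MOD 45105689249] := step (b := 0) k2_20 (by norm_num) (by norm_num)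
  have k2_22 : 3 ^ 5506065 ≡ 2994037804 [MOD 45105689249] := step (b := 1) k2_21 (by norm_num) (by norm_num)
  have k2_23 : 3 ^ 11012131 ≡ 43819883183 [MOD 45105689249] := step (b := 1) k2_22 (by norm_num) (by norm_num)
  have k2_24 : 3 ^ 22024262 ≡ 26377248457 [MOD 45105689249] := step (b := 0) k2_23 (by norm_num) (by norm_num)
  have k2_25 : 3 ^ 44048524 ≡ 1944198575 [MOD 45105689249] := step (b := 0) k2_24 (by norm_num) (by norm_num)
  have k2_26 : 3 ^ 88097049 ≡ 29074395789 [MOD 45105689249] := step (b := 1) k2_25 (by norm_num) (by norm_num)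
  have k2_27 : 3 ^ 176194098 ≡ 43702234782 [MOD 45105689249] := step (b := 0) k2_26 (by norm_num) (by norm_num)
  have k2_28 : 3 ^ 352388197 ≡ 3768945879 [MOD 45105689249] := step (b := 1) k2_27 (by norm_num) (by norm_num)
  have k2_29 : 3 ^ 704776394 ≡ 9359807613 [MOD 45105689249] := step (b := 0) k2_28 (by norm_num) (by norm_num)
  have k2_30 : 3 ^ 1409552789 ≡ 20793820046 [MOD 45105689249] := step (b := 1) k2_29 (by norm_num) (by norm_num)
  have k2_31 : 3 ^ 2819105578 ≡ 33160430763 [MOD 45105689249] := step (b := 0) k2_30 (by norm_num) (by norm_num)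
  have k2_32 : 3 ^ 5638211156 ≡ 16996739247 [MOD 45105689249] := step (b := 0) k2_31 (by norm_num) (by norm_num)
  have k2_33 : 3 ^ 11276422312 ≡ 25371809100 [MOD 45105689249] := step (b := 0) k2_32 (by norm_num) (by norm_num)
  have k2_34 : 3 ^ 22552844624 ≡ 45105689248 [MOD 45105689249] := step (b := 0) k2_33 (by norm_num) (by norm_num)
  have k2243_0 : 3 ^ 1 ≡ 3 [MOD 45105689249] := rfl
  have k2243_1 : 3 ^ 2 ≡ 9 [MOD 45105689249] := step (b := 0) k2243_0 (by norm_num) (by norm_num)
  have k2243_2 : 3 ^ 4 ≡ 81 [MOD 45105689249] := step (b := 0) k2243_1 (by norm_num) (by norm_num)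
  have k2243_3 : 3 ^ 9 ≡ 19683 [MOD 45105689249] := step (b := 1) k2243_2 (by norm_num) (by norm_num)
  have k2243_4 : 3 ^ 19 ≡ 1162261467 [MOD 45105689249] := step (b := 1) k2243_3 (by norm_num) (by norm_num)
  have k2243_5 : 3 ^ 38 ≡ 13898661677 [MOD 45105689249] := step (b := 0) k2243_4 (by norm_num) (by norm_num)
  have k2243_6 : 3 ^ 76 ≡ 27401508894 [MOD 45105689249] := step (b := 0) k2243_5 (by norm_num) (by norm_num)
  have k2243_7 : 3 ^ 153 ≡ 23272422795 [MOD 45105689249] := step (b := 1) k2243_6 (by norm_num) (by norm_num)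
  have k2243_8 : 3 ^ 306 ≡ 32905171551 [MOD 45105689249] := step (b := 0) k2243_7 (by norm_num) (by norm_num)
  have k2243_9 : 3 ^ 613 ≡ 10948730931 [MOD 45105689249] := step (b := 1) k2243_8 (by norm_num) (by norm_num)
  have k2243_10 : 3 ^ 1227 ≡ 15304389947 [MOD 45105689249] := step (b := 1) k2243_9 (by norm_num) (by norm_num)
  have k2243_11 : 3 ^ 2454 ≡ 7397182606 [MOD 45105689249] := step (b := 0) k2243_10 (by norm_num) (by norm_num)
  have k2243_12 : 3 ^ 4909 ≡ 30932676789 [MOD 45105689249] := step (b := 1) k2243_11 (by norm_num) (by norm_num)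
  have k2243_13 : 3 ^ 9819 ≡ 31870248084 [MOD 45105689249] := step (b := 1) k2243_12 (by norm_num) (by norm_num)
  have k2243_14 : 3 ^ 19638 ≡ 12320556339 [MOD 45105689249] := step (b := 0) k2243_13 (by norm_num) (by norm_num)
  have k2243_15 : 3 ^ 39276 ≡ 9768888014 [MOD 45105689249] := step (b := 0) k2243_14 (by norm_num) (by norm_num)
  have k2243_16 : 3 ^ 78552 ≡ 32575407085 [MOD 45105689249] := step (b := 0) k2243_15 (by norm_num) (by norm_num)
  have k2243_17 : 3 ^ 157105 ≡ 38550679580 [MOD 45105689249] := step (b := 1) k2243_16 (by norm_num) (by norm_num)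
  have k2243_18 : 3 ^ 314211 ≡ 2087403838 [MOD 45105689249] := step (b := 1) k2243_17 (by norm_num) (by norm_num)
  have k2243_19 : 3 ^ 628423 ≡ 16629308238 [MOD 45105689249] := step (b := 1) k2243_18 (by norm_num) (by norm_num)
  have k2243_20 : 3 ^ 1256846 ≡ 34122445654 [MOD 45105689249] := step (b := 0) k2243_19 (by norm_num) (by norm_num)
  have k2243_21 : 3 ^ 2513692 ≡ 17703686102 [MOD 45105689249] := step (b := 0) k2243_20 (by norm_num) (by norm_num)
  have k2243_22 : 3 ^ 5027384 ≡ 29697843656 [MOD 45105689249] := step (b := 0) k2243_21 (by norm_num) (by norm_num)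
  have k2243_23 : 3 ^ 10054768 ≡ 43296052621 [MOD 45105689249] := step (b := 0) k2243_22 (by norm_num) (by norm_num)
  have k2243_24 : 3 ^ 20109536 ≡ 4235229860 [MOD 45105689249] := step (b := 0) k2243_23 (by norm_num) (by norm_num)
  have k628423_0 : 3 ^ 1 ≡ 3 [MOD 45105689249] := rfl
  have k628423_1 : 3 ^ 2 ≡ 9 [MOD 45105689249] := step (b := 0) k628423_0 (by norm_num) (by norm_num)
  have k628423_2 : 3 ^ 4 ≡ 81 [MOD 45105689249] := step (b := 0) k628423_1 (by norm_num) (by norm_num)
  have k628423_3 : 3 ^ 8 ≡ 6561 [MOD 45105689249] := step (b := 0) k628423_2 (by norm_num) (by norm_num)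
  have k628423_4 : 3 ^ 17 ≡ 129140163 [MOD 45105689249] := step (b := 1) k628423_3 (by norm_num) (by norm_num)
  have k628423_5 : 3 ^ 35 ≡ 43949873413 [MOD 45105689249] := step (b := 1) k628423_4 (by norm_num) (by norm_num)
  have k628423_6 : 3 ^ 70 ≡ 28066225979 [MOD 45105689249] := step (b := 0) k628423_5 (by norm_num) (by norm_num)
  have k628423_7 : 3 ^ 140 ≡ 36094343517 [MOD 45105689249] := step (b := 0) k628423_6 (by norm_num) (by norm_num)
  have k628423_8 : 3 ^ 280 ≡ 28764444672 [MOD 45105689249] := step (b := 0) k628423_7 (by norm_num) (by norm_num)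
  have k628423_9 : 3 ^ 560 ≡ 43123685548 [MOD 45105689249] := step (b := 0) k628423_8 (by norm_num) (by norm_num)
  have k628423_10 : 3 ^ 1121 ≡ 35492757052 [MOD 45105689249] := step (b := 1) k628423_9 (by norm_num) (by norm_num)
  have k628423_11 : 3 ^ 2243 ≡ 12139860932 [MOD 45105689249] := step (b := 1) k628423_10 (by norm_num) (by norm_num)
  have k628423_12 : 3 ^ 4486 ≡ 19902830442 [MOD 45105689249] := step (b := 0) k628423_11 (by norm_num) (by norm_num)
  have k628423_13 : 3 ^ 8972 ≡ 32122682554 [MOD 45105689249] := step (b := 0) k628423_12 (by norm_num) (by norm_num)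
  have k628423_14 : 3 ^ 17944 ≡ 33736093066 [MOD 45105689249] := step (b := 0) k628423_13 (by norm_num) (by norm_num)
  have k628423_15 : 3 ^ 35888 ≡ 33231589469 [MOD 45105689249] := step (b := 0) k628423_14 (by norm_num) (by norm_num)
  have k628423_16 : 3 ^ 71776 ≡ 12645905047 [MOD 45105689249] := step (b := 0) k628423_15 (by norm_num) (by norm_num)
  apply lucas_primality 45105689249 ((3 : ℕ) : ZMod 45105689249)
  · exact pow_eq (by norm_num) h35
  · intro q hq hd
    have e : 45105689249 - 1 = 2 ^ 5 * 2243 ^ 1 * 628423 ^ 1 := by norm_num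
    rw [e] at hd
    rcases hq.dvd_mul.1 hd with hd | hd
    rotate_left
    · have hq' := (Nat.prime_dvd_prime_iff_eq hq (by norm_num)).1 (hq.dvd_of_dvd_pow hd)
      subst hq'
      exact pow_ne (by norm_num) k628423_16 (by norm_num)
    rcases hq.dvd_mul.1 hd with hd | hd
    rotate_left
    · have hq' := (Nat.prime_dvd_prime_iff_eq hq (by norm_num)).1 (hq.dvd_of_dvd_pow hd)
      subst hq'
      exact pow_ne (by norm_num) k2243_24 (by norm_num)
    have hq' := (Nat.prime_dvd_prime_iff_eq hq (by norm_num)).1 (hq.dvd_of_dvd_pow hd)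
    subst hq'
    exact pow_ne (by norm_num) k2_34 (by norm_num)

/-- The primes around the third number. -/
theorem gap3 (r : ℕ) (hr : r.Prime) (h1 : 45105689107 < r) (h2 : r < 45105689249) : False := by
  interval_cases r <;> revert hr <;> norm_num

theorem P3 : P (45105689160 * (45105689160 + 1)) = 41 := by
  apply le_antisymm
  · apply P_le
    intro r hr h
    have e : 45105689160 * (45105689160 + 1) =
        2 ^ 3 * (3 ^ 5 * (5 ^ 1 * (7 ^ 1 * (19 ^ 1 * (23 ^ 1 * (37 ^ 1 * (41 ^ 1 *
          (13 ^ 2 * (17 ^ 2 * 31 ^ 4))))))))) := by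
      norm_num
    rw [e] at h
    rcases hr.dvd_mul.1 h with h | h
    · exact le_of_dvd_pow hr (by norm_num) (by norm_num) h
    rcases hr.dvd_mul.1 h with h | h
    · exact le_of_dvd_pow hr (by norm_num) (by norm_num) h
    rcases hr.dvd_mul.1 h with h | h
    · exact le_of_dvd_pow hr (by norm_num) (by norm_num) h
    rcases hr.dvd_mul.1 h with h | h
    · exact le_of_dvd_pow hr (by norm_num) (by norm_num) h
    rcases hr.dvd_mul.1 h with h | h
    · exact le_of_dvd_pow hr (by norm_num) (by norm_num) h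
    rcases hr.dvd_mul.1 h with h | h
    · exact le_of_dvd_pow hr (by norm_num) (by norm_num) h
    rcases hr.dvd_mul.1 h with h | h
    · exact le_of_dvd_pow hr (by norm_num) (by norm_num) h
    rcases hr.dvd_mul.1 h with h | h
    · exact le_of_dvd_pow hr (by norm_num) (by norm_num) h
    rcases hr.dvd_mul.1 h with h | h
    · exact le_of_dvd_pow hr (by norm_num) (by norm_num) h
    rcases hr.dvd_mul.1 h with h | h
    · exact le_of_dvd_pow hr (by norm_num) (by norm_num) h
    · exact le_of_dvd_pow hr (by norm_num) (by norm_num) h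
  · exact le_P (by norm_num) (by norm_num) (by norm_num)

theorem D3 : δ 45105689160 = 53 := by
  rw [δ_eq (p := 45105689107) (q := 45105689249) prime3 prime3' (by norm_num)
    (by norm_num) gap3]
  norm_num

/-- **Disproof of Q1**: three explicit integers `n ≥ 3` with `P(n(n+1)) < δ(n)`, a strict
inequality; the exact values are `P = 43, 19, 41` and `δ = 51, 23, 53`. -/
theorem result :
    (¬ ∀ n : ℕ, 3 ≤ n → δ n < P (n * (n + 1))) ∧
    (P (10088144 * (10088144 + 1)) = 43 ∧ δ 10088144 = 51) ∧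
    (P (11859210 * (11859210 + 1)) = 19 ∧ δ 11859210 = 23) ∧
    (P (45105689160 * (45105689160 + 1)) = 41 ∧ δ 45105689160 = 53) := by
  refine ⟨fun h => ?_, ⟨P1, D1⟩, ⟨P2, D2⟩, ⟨P3, D3⟩⟩
  have := h 11859210 (by norm_num)
  rw [P2, D2] at this
  omega

end Pool.Agent.Results.MP_1bbd34_nt.ThreeCounterexamples
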